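import Mathlib
import Pool.Agent.Helper47.M.Defs

/-!
# Theorem M, block J: charts and coefficients

* `gp r w y`: the point with the affine coordinates `w` in the factors other than `r`, and the
  homogeneous coordinates `y` in the factor `r`.
* `ins p z v`: the vector with the entries `v` on `p`, and the constants `z` elsewhere.
* `fc`, `dc`: the coefficients of the linear functionals `fv`, `dv`; `row`: of a combination of the
  forms.
-/

set_option autoImplicit false

namespace Pool.Agent.Helper60.M

open MvPolynomial Pool.Agent.Helper47.M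

variable {k l : ℕ} {N : Fin k → ℕ} {d : Fin l → Fin k → ℕ}

section ins

variable {ι : Type*} (p : ι → Prop) [DecidablePred p] (z : ι → ℕ)

/-- The vector with the entries `v` on `p`, and the constants `z` elsewhere. -/
def ins {S : Type*} [CommRing S] (v : {i // p i} → S) (i : ι) : S :=
  if h : p i then v ⟨i, h⟩ else (z i : S)

theorem ins_pos {S : Type*} [CommRing S] (v : {i // p i} → S) (i : ι) (h : p i) :
    ins p z v i = v ⟨i, h⟩ := by
  simp [ins, h]

theorem ins_neg {S : Type*} [CommRing S] (v : {i // p i} → S) (i : ι) (h : ¬ p i) :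
    ins p z v i = (z i : S) := by
  simp [ins, h]

theorem ins_map {S S' : Type*} [CommRing S] [CommRing S'] (f : S →+* S') (v : {i // p i} → S)
    (i : ι) : f (ins p z v i) = ins p z (fun i => f (v i)) i := by
  unfold ins
  split_ifs <;> simp

theorem ins_mem {Ω : Type*} [Field Ω] (L : Subfield Ω) (v : {i // p i} → Ω) (hv : ∀ i, v i ∈ L)
    (i : ι) : ins p z v i ∈ L := by
  unfold ins
  split_ifs
  · exact hv _
  · exact natCast_mem L _

theorem ins_eq {S : Type*} [CommRing S] (y : ι → S) (h : ∀ i, ¬ p i → y i = (z i : S)) :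
    ins p z (fun i => y i) = y := by
  funext i
  unfold ins
  split_ifs with hi
  · rfl
  · exact (h i hi).symm

end ins

section gp

variable (r : Fin k)

/-- The point with the given coordinates. -/
def gp {S : Type*} [CommRing S] (w : {q : Vr N // q.1 ≠ r} → S) (y : Fin (N r + 1) → S) :
    Pt N S :=
  Function.update (fun j => if h : j = r then 0 else Fin.cons 1 fun q => w ⟨⟨j, q⟩, h⟩) r y

variable {r}

theorem gp_self {S : Type*} [CommRing S] (w : {q : Vr N // q.1 ≠ r} → S)
    (y : Fin (N r + 1) → S) : gp r w y r = y := by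
  simp [gp]

theorem gp_ne {S : Type*} [CommRing S] (w : {q : Vr N // q.1 ≠ r} → S)
    (y : Fin (N r + 1) → S) (j : Fin k) (h : j ≠ r) :
    gp r w y j = Fin.cons 1 fun q => w ⟨⟨j, q⟩, h⟩ := by
  simp [gp, h]

theorem gp_eq {S : Type*} [CommRing S] (x : Pt N S) (h : ∀ j, j ≠ r → x j 0 = 1) :
    gp r (fun q => x q.1.1 q.1.2.succ) (x r) = x := by
  funext j
  by_cases hj : j = r
  · subst hj
    exact gp_self _ _
  · rw [gp_ne _ _ _ hj]
    funext i
    refine Fin.cases ?_ (fun q => ?_) i
    · simp [h j hj]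
    · simp

theorem gp_map {S S' : Type*} [CommRing S] [CommRing S'] (f : S →+* S')
    (w : {q : Vr N // q.1 ≠ r} → S) (y : Fin (N r + 1) → S) :
    (fun j i => f (gp r w y j i)) = gp r (fun q => f (w q)) fun i => f (y i) := by
  funext j
  by_cases hj : j = r
  · subst hj
    rw [gp_self, gp_self]
  · rw [gp_ne _ _ _ hj, gp_ne _ _ _ hj]
    funext i
    refine Fin.cases ?_ (fun q => ?_) i
    · simp
    · simp

theorem gp_mem {Ω : Type*} [Field Ω] (L : Subfield Ω) (w : {q : Vr N // q.1 ≠ r} → Ω)
    (y : Fin (N r + 1) → Ω) (hw : ∀ q, w q ∈ L) (hy : ∀ i, y i ∈ L) (j : Fin k)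
    (i : Fin (N j + 1)) : gp r w y j i ∈ L := by
  by_cases hj : j = r
  · subst hj
    rw [gp_self]
    exact hy i
  · rw [gp_ne _ _ _ hj]
    refine Fin.cases ?_ (fun q => ?_) i
    · simp [one_mem]
    · simpa using hw _

theorem gp_ne_zero {S : Type*} [CommRing S] [Nontrivial S] (w : {q : Vr N // q.1 ≠ r} → S)
    (y : Fin (N r + 1) → S) (hy : y ≠ 0) (j : Fin k) : gp r w y j ≠ 0 := by
  by_cases hj : j = r
  · subst hj
    rw [gp_self]
    exact hy
  · rw [gp_ne _ _ _ hj]
    intro h
    have := congrFun h 0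
    simp at this

end gp

section coef

variable {e : Fin k → ℕ} {S : Type*} [CommRing S]

/-- The coefficients of `fv`. -/
def fc (x : Pt N S) (m : Tn N e) : S := ∏ r, ∏ t, x r (m r t)

/-- The coefficients of `dv`. -/
def dc (x : Pt N S) (j : Fin k) (b : Fin (N j + 1) → S) (m : Tn N e) : S :=
  ∑ t : Fin (e j), ∏ r, ∏ t', slot e x j t b r t' (m r t')

theorem fv_eq (a : Tn N e → S) (x : Pt N S) : fv a x = ∑ m, fc x m * a m := by
  unfold fv tv fc
  exact Finset.sum_congr rfl fun m _ => mul_comm _ _

theorem dv_eq (a : Tn N e → S) (x : Pt N S) (j : Fin k) (b : Fin (N j + 1) → S) :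
    dv a x j b = ∑ m, dc x j b m * a m := by
  unfold dv tv dc
  rw [Finset.sum_comm]
  refine Finset.sum_congr rfl fun m _ => ?_
  rw [Finset.sum_mul]
  exact Finset.sum_congr rfl fun t _ => mul_comm _ _

theorem fc_mem {Ω : Type*} [Field Ω] (L : Subfield Ω) (x : Pt N Ω) (hx : ∀ r i, x r i ∈ L)
    (m : Tn N e) : fc x m ∈ L :=
  prod_mem fun r _ => prod_mem fun t _ => hx r _

theorem slot_mem {Ω : Type*} [Field Ω] (L : Subfield Ω) (x : Pt N Ω) (hx : ∀ r i, x r i ∈ L)
    (j : Fin k) (t : Fin (e j)) (b : Fin (N j + 1) → Ω) (hb : ∀ i, b i ∈ L) (r : Fin k)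
    (t' : Fin (e r)) (i : Fin (N r + 1)) : slot e x j t b r t' i ∈ L := by
  unfold slot
  by_cases hj : r = j
  · subst hj
    rw [Function.update_self]
    by_cases ht : t' = t
    · subst ht
      rw [Function.update_self]
      exact hb i
    · rw [Function.update_of_ne ht]
      exact hx r i
  · rw [Function.update_of_ne hj]
    exact hx r i

theorem dc_mem {Ω : Type*} [Field Ω] (L : Subfield Ω) (x : Pt N Ω) (hx : ∀ r i, x r i ∈ L)
    (j : Fin k) (b : Fin (N j + 1) → Ω) (hb : ∀ i, b i ∈ L) (m : Tn N e) : dc x j b m ∈ L :=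
  sum_mem fun t _ => prod_mem fun r _ => prod_mem fun t' _ => slot_mem L x hx j t b hb r t' _

/-- The coefficients of a combination of functionals of the single forms. -/
def row (lam : Fin l → S) (g : ∀ i, Tn N (d i) → S) (m : Tx N d) : S := lam m.1 * g m.1 m.2

theorem row_sum (lam : Fin l → S) (g : ∀ i, Tn N (d i) → S) (c : Tx N d → S) :
    ∑ m, row lam g m * c m = ∑ i, lam i * ∑ m, g i m * c ⟨i, m⟩ := by
  rw [Fintype.sum_sigma]
  refine Finset.sum_congr rfl fun i _ => ?_
  rw [Finset.mul_sum]
  refine Finset.sum_congr rfl fun m _ => ?_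
  unfold row
  ring

theorem row_mem {Ω : Type*} [Field Ω] (L : Subfield Ω) (lam : Fin l → Ω) (hl : ∀ i, lam i ∈ L)
    (g : ∀ i, Tn N (d i) → Ω) (hg : ∀ i m, g i m ∈ L) (m : Tx N d) : row lam g m ∈ L :=
  mul_mem (hl _) (hg _ _)

/-- The row of the form `i`. -/
theorem row_Fm (c : Tx N d → S) (x : Pt N S) (i : Fin l) :
    ∑ m, row (Pi.single i 1) (fun _ => fc x) m * c m = Fm c x i := by
  rw [row_sum, Finset.sum_eq_single i]
  · rw [Pi.single_eq_same, one_mul]
    exact (fv_eq _ _).symm
  · intro j _ hj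
    rw [Pi.single_eq_of_ne hj, zero_mul]
  · intro h
    exact absurd (Finset.mem_univ i) h

/-- The row of a combination of derivatives. -/
theorem row_dF (c : Tx N d → S) (x : Pt N S) (lam : Fin l → S) (j : Fin k)
    (b : Fin (N j + 1) → S) :
    ∑ m, row lam (fun _ => dc x j b) m * c m = ∑ i, lam i * dF c x j b i := by
  rw [row_sum]
  refine Finset.sum_congr rfl fun i _ => ?_
  rw [← dv_eq]
  rfl

theorem Fm_map {S' : Type*} [CommRing S'] (f : S →+* S') (c : Tx N d → S) (x : Pt N S)
    (i : Fin l) : f (Fm c x i) = Fm (fun m => f (c m)) (fun r q => f (x r q)) i := by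
  unfold Fm fv tv
  simp only [map_sum, map_mul, map_prod]

theorem dv_map' {S' : Type*} [CommRing S'] (f : S →+* S') (a : Tn N e → S) (x : Pt N S)
    (j : Fin k) (b : Fin (N j + 1) → S) :
    f (dv a x j b) = dv (fun m => f (a m)) (fun r i => f (x r i)) j (fun i => f (b i)) := by
  unfold dv tv
  simp only [map_sum, map_mul, map_prod]
  refine Finset.sum_congr rfl fun t _ => Finset.sum_congr rfl fun m _ => ?_
  congr 1
  refine Finset.prod_congr rfl fun r _ => Finset.prod_congr rfl fun t' _ => ?_
  unfold slot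
  by_cases hj : r = j
  · subst hj
    rw [Function.update_self, Function.update_self]
    by_cases ht : t' = t
    · subst ht
      rw [Function.update_self, Function.update_self]
    · rw [Function.update_of_ne ht, Function.update_of_ne ht]
  · rw [Function.update_of_ne hj, Function.update_of_ne hj]

theorem dF_map {S' : Type*} [CommRing S'] (f : S →+* S') (c : Tx N d → S) (x : Pt N S)
    (j : Fin k) (b : Fin (N j + 1) → S) (i : Fin l) :
    f (dF c x j b i) = dF (fun m => f (c m)) (fun r q => f (x r q)) j (fun q => f (b q)) i :=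
  dv_map' f _ x j b

end coef

end Pool.Agent.Helper60.M
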