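import Mathlib
import Pool.Agent.Helper60.M.Gp
import Pool.Agent.Helper16.M.Spread
import Pool.Agent.Helper66.M.Count
import Pool.Agent.Helper94.M.Tensor

/-!
# Theorem M, block J: `nice0`, `nice1`

`engine`: equations with more independent rows than parameters do not hold for general
coefficients.
-/

set_option autoImplicit false

namespace Pool.Agent.Helper60.M

open MvPolynomial Pool.Agent.Helper47.M

variable {k l : ℕ} {N : Fin k → ℕ} {d : Fin l → Fin k → ℕ}

/-- Dimension count and spreading out: the rows `T` are given by universal formulas in the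
coordinates `w` and the auxiliary parameters `v`. -/
theorem engine (r : Fin k) {ν U : Type} [Fintype ν] [Fintype U]
    (T : ∀ (S : Type) [CommRing S], ({q : Vr N // q.1 ≠ r} → S) → (ν → S) → U → Tx N d → S)
    (hT : ∀ (S S' : Type) [CommRing S] [CommRing S'] (f : S →+* S')
      (w : {q : Vr N // q.1 ≠ r} → S) (v : ν → S) (u : U) (m : Tx N d),
      f (T S w v u m) = T S' (fun q => f (w q)) (fun q => f (v q)) u m)
    (hm : ∀ (Ω : Type) [Field Ω] (L : Subfield Ω) (w : {q : Vr N // q.1 ≠ r} → Ω) (v : ν → Ω),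
      (∀ q, w q ∈ L) → (∀ q, v q ∈ L) → ∀ u m, T Ω w v u m ∈ L)
    (hs : ∀ (Ω : Type) [Field Ω] (w : {q : Vr N // q.1 ≠ r} → Ω) (v : ν → Ω) (t : U → Ω),
      ∃ c : Tx N d → Ω, ∀ u, ∑ m, T Ω w v u m * c m = t u)
    (hc : Fintype.card ν < Fintype.card U) :
    ∃ Δ : MvPolynomial (Tx N d) ℚ, Δ ≠ 0 ∧ ∀ (K : Type) [Field K] [CharZero K] (c : Tx N d → K),
      aeval c Δ ≠ 0 → ∀ (Ω : Type) [Field Ω] [Algebra K Ω] (w : {q : Vr N // q.1 ≠ r} → Ω)
        (v : ν → Ω), AlgebraicIndependent K w →
          ¬ ∀ u, ∑ m, T Ω w v u m * algebraMap K Ω (c m) = 0 := by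
  classical
  let P := MvPolynomial (Tx N d ⊕ ({q : Vr N // q.1 ≠ r} ⊕ ν)) ℚ
  let G : U → P := fun u => ∑ m, T P (fun q => X (Sum.inr (Sum.inl q)))
    (fun q => X (Sum.inr (Sum.inr q))) u m * X (Sum.inl m)
  have key : ∀ (Ω : Type) [Field Ω] [CharZero Ω] (c : Tx N d → Ω)
      (w : {q : Vr N // q.1 ≠ r} → Ω) (v : ν → Ω) (u : U),
      aeval (Sum.elim c (Sum.elim w v)) (G u) = ∑ m, T Ω w v u m * c m := by
    intro Ω _ _ c w v u
    have h1 : ∀ m, aeval (Sum.elim c (Sum.elim w v)) (T P (fun q => X (Sum.inr (Sum.inl q)))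
        (fun q => X (Sum.inr (Sum.inr q))) u m) = T Ω w v u m := by
      intro m
      have h2 := hT P Ω (aeval (Sum.elim c (Sum.elim w v)) : P →ₐ[ℚ] Ω).toRingHom
        (fun q => X (Sum.inr (Sum.inl q))) (fun q => X (Sum.inr (Sum.inr q))) u m
      refine h2.trans ?_
      congr 1
      · funext q
        exact (aeval_X _ _).trans rfl
      · funext q
        exact (aeval_X _ _).trans rfl
    simp only [G, map_sum, map_mul, h1, aeval_X, Sum.elim_inl]
  obtain ⟨Δ, hΔ, hall⟩ := Pool.Agent.Helper16.M.spread (Set.range G) (by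
    intro Ω _ _ c w v hz hind
    have h0 : ∀ u, ∑ m, T Ω w v u m * c m = 0 := fun u => by
      rw [← key Ω c w v u]
      exact hz _ ⟨u, rfl⟩
    have h1 := Pool.Agent.Helper66.M.count c w v hind (T Ω w v) (fun u m =>
      hm Ω (IntermediateField.adjoin ℚ (Set.range w ∪ Set.range v)).toSubfield w v
        (fun q => IntermediateField.subset_adjoin _ _ (Or.inl ⟨q, rfl⟩))
        (fun q => IntermediateField.subset_adjoin _ _ (Or.inr ⟨q, rfl⟩)) u m)
      (hs Ω w v) h0
    omega)
  refine ⟨Δ, hΔ, fun K _ _ c hcc Ω _ _ w v hw h0 => ?_⟩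
  have : CharZero Ω := charZero_of_injective_algebraMap (algebraMap K Ω).injective
  refine hall K c hcc Ω w v hw ?_
  rintro g ⟨u, rfl⟩
  rw [key]
  exact h0 u

/-- Finitely many charts. -/
theorem charts {ι A : Type} [Fintype A] (Q : A → ∀ (K : Type) [Field K] [CharZero K],
    (ι → K) → Prop)
    (h : ∀ a, ∃ Δ : MvPolynomial ι ℚ, Δ ≠ 0 ∧ ∀ (K : Type) [Field K] [CharZero K] (c : ι → K),
      aeval c Δ ≠ 0 → Q a K c) :
    ∃ Δ : MvPolynomial ι ℚ, Δ ≠ 0 ∧ ∀ (K : Type) [Field K] [CharZero K] (c : ι → K),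
      aeval c Δ ≠ 0 → ∀ a, Q a K c := by
  choose Δ h1 h2 using h
  refine ⟨∏ a, Δ a, Finset.prod_ne_zero_iff.2 fun a _ => h1 a, fun K _ _ c hc a => ?_⟩
  refine h2 a K c fun h0 => hc ?_
  rw [map_prod]
  exact Finset.prod_eq_zero (Finset.mem_univ a) h0

theorem l_pos (h : Ty N d) (r : Fin k) : 0 < l := by
  rcases Nat.eq_zero_or_pos l with h0 | h0
  · subst h0
    have := h.sum r
    simp at this
  · exact h0

theorem nice0 (h : Ty N d) (r : Fin k) (hr : N r = l + 1) :
    ∃ Δ : MvPolynomial (Tx N d) ℚ, Δ ≠ 0 ∧ ∀ (K : Type) [Field K] [CharZero K] (c : Tx N d → K),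
      aeval c Δ ≠ 0 → ∀ (Ω : Type) [Field Ω] [Algebra K Ω] (x : Pt N Ω), GenPt K c r x →
        ¬ (x r 0 = 0 ∧ x r 1 = 0) := by
  classical
  have hl := l_pos h r
  -- the chart `x r e = 1`
  have step : ∀ e : {e : Fin (N r + 1) // e ≠ 0 ∧ e ≠ 1},
      ∃ Δ : MvPolynomial (Tx N d) ℚ, Δ ≠ 0 ∧ ∀ (K : Type) [Field K] [CharZero K]
        (c : Tx N d → K), aeval c Δ ≠ 0 → ∀ (Ω : Type) [Field Ω] [Algebra K Ω] (x : Pt N Ω),
          GenPt K c r x → x r 0 = 0 → x r 1 = 0 → x r e.1 ≠ 1 := by
    rintro ⟨e, he0, he1⟩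
    let p : Fin (N r + 1) → Prop := fun i => i ≠ 0 ∧ i ≠ 1 ∧ i ≠ e
    let z : Fin (N r + 1) → ℕ := fun i => if i = e then 1 else 0
    have hpe : ¬ p e := fun hh => hh.2.2 rfl
    obtain ⟨Δ, hΔ, hall⟩ := engine (d := d) r (ν := {i // p i}) (U := Fin l)
      (fun S _ w v u => row (Pi.single u 1) (fun _ => fc (gp r w (ins p z v))))
      (by
        intro S S' _ _ f w v u m
        have h1 := gp_map f w (ins p z v)
        simp only [ins_map] at h1
        unfold row fc
        rw [map_mul, map_prod]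
        have h3 : ∀ j i, f (gp r w (ins p z v) j i) =
            gp r (fun q => f (w q)) (fun i => ins p z (fun i => f (v i)) i) j i :=
          fun j i => congrFun (congrFun h1 j) i
        simp only [map_prod, h3]
        congr 1
        by_cases hu : m.1 = u
        · rw [hu, Pi.single_eq_same, Pi.single_eq_same, map_one]
        · rw [Pi.single_eq_of_ne hu, Pi.single_eq_of_ne hu, map_zero])
      (by
        intro Ω _ L w v hw hv u m
        refine row_mem L _ (fun i => ?_) _ (fun i m => fc_mem L _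
          (gp_mem L w _ hw (ins_mem p z L v hv)) m) m
        by_cases hu : i = u
        · rw [hu, Pi.single_eq_same]
          exact one_mem L
        · rw [Pi.single_eq_of_ne hu]
          exact zero_mem L)
      (by
        intro Ω _ w v t
        have hy : ins p z v ≠ 0 := fun h0 => by
          have := congrFun h0 e
          rw [ins_neg p z v e hpe] at this
          simp [z] at this
        have hx := gp_ne_zero w (ins p z v) hy
        choose a ha _ using fun i : Fin l => Pool.Agent.Helper94.M.exists_tensor (e := d i) (fun j => h.pos i j)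
          (gp r w (ins p z v)) hx r e (by
            rw [gp_self, ins_neg p z v e hpe]
            simp [z]) (t i) 0
        refine ⟨fun m => a m.1 m.2, fun u => ?_⟩
        rw [row_Fm]
        exact ha u)
      (by
        have h1 : Fintype.card {i : Fin (N r + 1) // p i} + 3 = N r + 1 := by
          have h2 : Fintype.card {i : Fin (N r + 1) // p i} =
              (Finset.univ \ {0, 1, e} : Finset (Fin (N r + 1))).card := by
            rw [Fintype.card_subtype]
            congr 1
            ext i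
            simp [p]
          rw [h2, Finset.card_sdiff_of_subset (Finset.subset_univ _), Finset.card_univ,
            Fintype.card_fin]
          have h3 : ({0, 1, e} : Finset (Fin (N r + 1))).card = 3 := by
            rw [Finset.card_eq_three]
            refine ⟨0, 1, e, ?_, Ne.symm he0, Ne.symm he1, rfl⟩
            intro h01
            have h4 := congrArg Fin.val h01
            simp only [Fin.coe_ofNat_eq_mod, Nat.zero_mod] at h4
            rw [Nat.mod_eq_of_lt (by omega)] at h4
            omega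
          rw [h3]
          omega
        rw [Fintype.card_fin]
        omega)
    refine ⟨Δ, hΔ, fun K _ _ c hc Ω _ _ x hx hx0 hx1 hxe => ?_⟩
    refine hall K c hc Ω _ (fun i => x r i) hx.ind fun u => ?_
    rw [row_Fm (fun m => algebraMap K Ω (c m))]
    have h1 : ins p z (fun i => x r i) = x r := by
      refine ins_eq p z (x r) fun i hi => ?_
      by_cases hie : i = e
      · subst hie
        simp [z, hxe]
      · have : i = 0 ∨ i = 1 := by
          by_contra hcon
          push Not at hcon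
          exact hi ⟨hcon.1, hcon.2, hie⟩
        rcases this with rfl | rfl
        · simp [z, hie, hx0]
        · simp [z, hie, hx1]
    rw [h1, gp_eq x hx.one]
    exact hx.eq u
  obtain ⟨Δ, hΔ, hall⟩ := charts (fun (e : {e : Fin (N r + 1) // e ≠ 0 ∧ e ≠ 1}) K _ _ c =>
    ∀ (Ω : Type) [Field Ω] [Algebra K Ω] (x : Pt N Ω),
      GenPt K c r x → x r 0 = 0 → x r 1 = 0 → x r e.1 ≠ 1) step
  refine ⟨Δ, hΔ, fun K _ _ c hc Ω _ _ x hx hx01 => ?_⟩
  obtain ⟨i, hi⟩ := hx.norm
  have h0 : i ≠ 0 := by
    rintro rfl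
    rw [hx01.1] at hi
    exact zero_ne_one hi
  have h1 : i ≠ 1 := by
    rintro rfl
    rw [hx01.2] at hi
    exact zero_ne_one hi
  exact hall K c hc ⟨i, h0, h1⟩ Ω x hx hx01.1 hx01.2 hi

section maps

variable {e : Fin k → ℕ} {S S' : Type*} [CommRing S] [CommRing S']

theorem fc_map (f : S →+* S') (x : Pt N S) (m : Tn N e) :
    f (fc x m) = fc (fun r i => f (x r i)) m := by
  unfold fc
  simp only [map_prod]

theorem slot_map (f : S →+* S') (x : Pt N S) (j : Fin k) (t : Fin (e j))
    (b : Fin (N j + 1) → S) (r : Fin k) (t' : Fin (e r)) (i : Fin (N r + 1)) :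
    f (slot e x j t b r t' i) = slot e (fun r i => f (x r i)) j t (fun i => f (b i)) r t' i := by
  unfold slot
  by_cases hj : r = j
  · subst hj
    rw [Function.update_self, Function.update_self]
    by_cases ht : t' = t
    · subst ht
      rw [Function.update_self, Function.update_self]
    · rw [Function.update_of_ne ht, Function.update_of_ne ht]
  · rw [Function.update_of_ne hj, Function.update_of_ne hj]

theorem dc_map (f : S →+* S') (x : Pt N S) (j : Fin k) (b : Fin (N j + 1) → S) (m : Tn N e) :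
    f (dc x j b m) = dc (fun r i => f (x r i)) j (fun i => f (b i)) m := by
  unfold dc
  simp only [map_sum, map_prod, slot_map]

theorem single_map {ι : Type*} [DecidableEq ι] (f : S →+* S') (i : ι) :
    (fun q => f ((Pi.single i (1 : S) : ι → S) q)) = Pi.single i 1 := by
  funext q
  by_cases h : q = i
  · rw [h, Pi.single_eq_same, Pi.single_eq_same, map_one]
  · rw [Pi.single_eq_of_ne h, Pi.single_eq_of_ne h, map_zero]

theorem single_mem {Ω : Type*} [Field Ω] {ι : Type*} [DecidableEq ι] (L : Subfield Ω) (i q : ι) :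
    (Pi.single i (1 : Ω) : ι → Ω) q ∈ L := by
  by_cases h : q = i
  · rw [h, Pi.single_eq_same]
    exact one_mem L
  · rw [Pi.single_eq_of_ne h]
    exact zero_mem L

end maps

/-- The point in the chart `x r e = 1`. -/
def gpe (r : Fin k) (e : Fin (N r + 1)) {S : Type*} [CommRing S]
    (w : {q : Vr N // q.1 ≠ r} → S) (v : {i : Fin (N r + 1) // i ≠ e} → S) : Pt N S :=
  gp r w (ins (fun i => i ≠ e) (fun _ => 1) v)

theorem gpe_map (r : Fin k) (e : Fin (N r + 1)) {S S' : Type*} [CommRing S] [CommRing S']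
    (f : S →+* S') (w : {q : Vr N // q.1 ≠ r} → S) (v : {i : Fin (N r + 1) // i ≠ e} → S) :
    (fun j i => f (gpe r e w v j i)) = gpe r e (fun q => f (w q)) fun i => f (v i) := by
  have h1 := gp_map f w (ins (fun i => i ≠ e) (fun _ => 1) v)
  simp only [ins_map] at h1
  exact h1

theorem gpe_mem {Ω : Type*} [Field Ω] (L : Subfield Ω) (r : Fin k) (e : Fin (N r + 1))
    (w : {q : Vr N // q.1 ≠ r} → Ω) (v : {i : Fin (N r + 1) // i ≠ e} → Ω)
    (hw : ∀ q, w q ∈ L) (hv : ∀ q, v q ∈ L) (j : Fin k) (i : Fin (N j + 1)) :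
    gpe r e w v j i ∈ L :=
  gp_mem L w _ hw (ins_mem _ _ L v hv) j i

theorem gpe_self (r : Fin k) (e : Fin (N r + 1)) {S : Type*} [CommRing S]
    (w : {q : Vr N // q.1 ≠ r} → S) (v : {i : Fin (N r + 1) // i ≠ e} → S) :
    gpe r e w v r e = 1 := by
  unfold gpe
  rw [gp_self, ins_neg _ _ _ _ (by simp)]
  simp

theorem gpe_zero (r : Fin k) (e : Fin (N r + 1)) {S : Type*} [CommRing S]
    (w : {q : Vr N // q.1 ≠ r} → S) (v : {i : Fin (N r + 1) // i ≠ e} → S) (j : Fin k)
    (hj : j ≠ r) : gpe r e w v j 0 = 1 := by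
  unfold gpe
  rw [gp_ne _ _ _ hj]
  simp

theorem gpe_ne_zero (r : Fin k) (e : Fin (N r + 1)) {S : Type*} [CommRing S] [Nontrivial S]
    (w : {q : Vr N // q.1 ≠ r} → S) (v : {i : Fin (N r + 1) // i ≠ e} → S) (j : Fin k) :
    gpe r e w v j ≠ 0 := by
  by_cases hj : j = r
  · subst hj
    intro h0
    have h1 := gpe_self j e w v
    rw [h0] at h1
    simp at h1
  · intro h0
    have h1 := gpe_zero r e w v j hj
    rw [h0] at h1
    simp at h1

theorem gpe_eq (r : Fin k) (e : Fin (N r + 1)) {S : Type*} [CommRing S] (x : Pt N S)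
    (h : ∀ j, j ≠ r → x j 0 = 1) (he : x r e = 1) :
    gpe r e (fun q => x q.1.1 q.1.2.succ) (fun i => x r i) = x := by
  unfold gpe
  rw [ins_eq _ _ (x r) fun i hi => by
    have : i = e := not_not.1 hi
    subst this
    simp [he]]
  exact gp_eq x h

/-- One chart for `nice1`. -/
theorem nice1_aux (h : Ty N d) (r : Fin k) (hr : N r = l + 1) (j : Fin k) (hj : N j = l + 1)
    (e : Fin (N r + 1)) (i0 : Fin l) (e0 : Fin (N j + 1))
    (he0 : ∀ (S : Type) [CommRing S] (w : {q : Vr N // q.1 ≠ r} → S)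
      (v : {i : Fin (N r + 1) // i ≠ e} → S), gpe r e w v j e0 = 1) :
    ∃ Δ : MvPolynomial (Tx N d) ℚ, Δ ≠ 0 ∧ ∀ (K : Type) [Field K] [CharZero K] (c : Tx N d → K),
      aeval c Δ ≠ 0 → ∀ (Ω : Type) [Field Ω] [Algebra K Ω] (x : Pt N Ω), GenPt K c r x →
        x r e = 1 → ∀ lam : Fin l → Ω, lam i0 = 1 →
          ¬ ∀ b, ∑ i, lam i * dF (fun e => algebraMap K Ω (c e)) x j b i = 0 := by
  classical
  have hl := l_pos h r
  obtain ⟨Δ, hΔ, hall⟩ := engine (d := d) r
    (ν := {i : Fin (N r + 1) // i ≠ e} ⊕ {i : Fin l // i ≠ i0})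
    (U := Fin l ⊕ {b : Fin (N j + 1) // b ≠ e0})
    (fun S _ w v u => Sum.elim
      (fun i => row (Pi.single i 1) (fun _ => fc (gpe r e w fun q => v (Sum.inl q))))
      (fun b => row (ins (fun i => i ≠ i0) (fun _ => 1) fun q => v (Sum.inr q))
        (fun _ => dc (gpe r e w fun q => v (Sum.inl q)) j (Pi.single b.1 1))) u)
    (by
      intro S S' _ _ f w v u m
      have h1 := gpe_map r e f w fun q => v (Sum.inl q)
      rcases u with i | b
      · simp only [Sum.elim_inl, row]
        rw [map_mul, fc_map, h1]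
        congr 1
        exact congrFun (single_map f i) _
      · simp only [Sum.elim_inr, row]
        rw [map_mul, dc_map, h1, ins_map, single_map])
    (by
      intro Ω _ L w v hw hv u m
      have h1 := gpe_mem L r e w (fun q => v (Sum.inl q)) hw fun q => hv _
      rcases u with i | b
      · exact row_mem L _ (single_mem L i) _ (fun i m => fc_mem L _ h1 m) m
      · exact row_mem L _ (ins_mem _ _ L _ fun q => hv _) _
          (fun i m => dc_mem L _ h1 j _ (single_mem L _) m) m)
    (by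
      intro Ω _ w v t
      set y := gpe r e w fun q => v (Sum.inl q) with hy
      have hx : ∀ j, y j ≠ 0 := gpe_ne_zero r e w _
      have hy0 : y j e0 = 1 := he0 Ω w _
      choose a ha hb using fun i : Fin l => Pool.Agent.Helper94.M.exists_tensor (e := d i) (fun j => h.pos i j)
        y hx j e0 (by rw [hy0]; exact one_ne_zero) (t (Sum.inl i))
        (fun q => if hq : i = i0 ∧ q ≠ e0 then t (Sum.inr ⟨q, hq.2⟩) else 0)
      refine ⟨fun m => a m.1 m.2, fun u => ?_⟩
      rcases u with i | b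
      · simp only [Sum.elim_inl]
        rw [row_Fm]
        exact ha i
      · simp only [Sum.elim_inr]
        rw [row_dF]
        have h2 : ∀ i, dF (fun m : Tx N d => a m.1 m.2) y j (Pi.single b.1 1) i =
            if i = i0 then t (Sum.inr b) else 0 := by
          intro i
          have h3 := hb i (Pi.single b.1 1) (Pi.single_eq_of_ne (Ne.symm b.2) 1)
          refine h3.trans ?_
          rw [Finset.sum_eq_single b.1]
          · rw [Pi.single_eq_same, mul_one]
            by_cases hi : i = i0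
            · rw [dif_pos ⟨hi, b.2⟩, if_pos hi]
            · rw [dif_neg fun hh => hi hh.1, if_neg hi]
          · intro q _ hq
            rw [Pi.single_eq_of_ne hq, mul_zero]
          · intro hh
            exact absurd (Finset.mem_univ _) hh
        simp only [h2]
        rw [Finset.sum_eq_single i0]
        · rw [if_pos rfl, ins_neg _ _ _ _ (by simp)]
          simp
        · intro i _ hi
          rw [if_neg hi, mul_zero]
        · intro hh
          exact absurd (Finset.mem_univ _) hh)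
    (by
      rw [Fintype.card_sum, Fintype.card_sum, Fintype.card_fin]
      have h1 : ∀ (n : ℕ) (q : Fin n), Fintype.card {i : Fin n // i ≠ q} + 1 = n := by
        intro n q
        have h2 := Fintype.card_subtype_compl (fun i : Fin n => i = q)
        rw [Fintype.card_subtype_eq, Fintype.card_fin] at h2
        have h3 : 0 < n := q.pos
        have h4 : Fintype.card {i : Fin n // i ≠ q} = n - 1 := h2
        omega
      have h2 := h1 _ e
      have h3 := h1 _ i0
      have h4 := h1 _ e0
      omega)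
  refine ⟨Δ, hΔ, fun K _ _ c hc Ω _ _ x hx hxe lam hlam hb => ?_⟩
  have hxx := gpe_eq r e x hx.one hxe
  have hlam' : ins (fun i => i ≠ i0) (fun _ => 1) (fun q => lam q.1) = lam :=
    ins_eq _ _ lam fun i hi => by
      have : i = i0 := not_not.1 hi
      subst this
      simp [hlam]
  refine hall K c hc Ω _ (Sum.elim (fun i => x r i.1) fun i => lam i.1) hx.ind fun u => ?_
  rcases u with i | b
  · simp only [Sum.elim_inl]
    rw [row_Fm (fun m => algebraMap K Ω (c m)), hxx]
    exact hx.eq i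
  · simp only [Sum.elim_inr, Sum.elim_inl]
    rw [row_dF (fun m => algebraMap K Ω (c m)), hxx, hlam']
    exact hb _

theorem nice1 (h : Ty N d) (r : Fin k) (hr : N r = l + 1) (j : Fin k) (hj : N j = l + 1) :
    ∃ Δ : MvPolynomial (Tx N d) ℚ, Δ ≠ 0 ∧ ∀ (K : Type) [Field K] [CharZero K] (c : Tx N d → K),
      aeval c Δ ≠ 0 → ∀ (Ω : Type) [Field Ω] [Algebra K Ω] (x : Pt N Ω), GenPt K c r x →
        ∀ lam : Fin l → Ω,
          (∀ b, ∑ i, lam i * dF (fun e => algebraMap K Ω (c e)) x j b i = 0) → lam = 0 := by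
  classical
  have step : ∀ q : Fin (N r + 1) × Fin l,
      ∃ Δ : MvPolynomial (Tx N d) ℚ, Δ ≠ 0 ∧ ∀ (K : Type) [Field K] [CharZero K]
        (c : Tx N d → K), aeval c Δ ≠ 0 → ∀ (Ω : Type) [Field Ω] [Algebra K Ω] (x : Pt N Ω),
          GenPt K c r x → x r q.1 = 1 → ∀ lam : Fin l → Ω, lam q.2 = 1 →
          ¬ ∀ b, ∑ i, lam i * dF (fun e => algebraMap K Ω (c e)) x j b i = 0 := by
    rintro ⟨e, i0⟩
    by_cases hjr : j = r
    · subst hjr
      exact nice1_aux h j hr j hj e i0 e fun S _ w v => gpe_self j e w v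
    · exact nice1_aux h r hr j hj e i0 0 fun S _ w v => gpe_zero r e w v j hjr
  obtain ⟨Δ, hΔ, hall⟩ := charts (fun (q : Fin (N r + 1) × Fin l) K _ _ c =>
    ∀ (Ω : Type) [Field Ω] [Algebra K Ω] (x : Pt N Ω),
      GenPt K c r x → x r q.1 = 1 → ∀ lam : Fin l → Ω, lam q.2 = 1 →
      ¬ ∀ b, ∑ i, lam i * dF (fun e => algebraMap K Ω (c e)) x j b i = 0) step
  refine ⟨Δ, hΔ, fun K _ _ c hc Ω _ _ x hx lam hb => ?_⟩
  by_contra hlam
  obtain ⟨i0, hi0⟩ := Function.ne_iff.1 hlam
  rw [Pi.zero_apply] at hi0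
  obtain ⟨e, he⟩ := hx.norm
  refine hall K c hc ⟨e, i0⟩ Ω x hx he (fun i => (lam i0)⁻¹ * lam i) (inv_mul_cancel₀ hi0)
    fun b => ?_
  have h1 : ∑ i, (lam i0)⁻¹ * lam i * dF (fun e => algebraMap K Ω (c e)) x j b i =
      (lam i0)⁻¹ * ∑ i, lam i * dF (fun e => algebraMap K Ω (c e)) x j b i := by
    rw [Finset.mul_sum]
    exact Finset.sum_congr rfl fun i _ => mul_assoc _ _ _
  rw [h1, hb b, mul_zero]

end Pool.Agent.Helper60.M
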